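import Pool.Agent.Helper19.SQ.GoalsC2

/-!
# MP_bb32d1_al, MP_2a8fe7_al: the lower half of Haiman's theorem, module block (helper19)

`HMod n V`: the relations of the rational Cherednik algebra of `S_n` on the reflection
representation, with the parameter `c = (n+1)/n`.
`HGr n V`: such a module which is a graded quotient of the polynomials in `n` variables.
-/

set_option autoImplicit false

namespace Pool.Agent.Helper19.HM

noncomputable section

open Pool.Agent.Helper19.SQ MvPolynomial

/-- the parameter `c = (n+1)/n`. -/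
def cc (n : ℕ) : ℂ := ((n : ℂ) + 1) / (n : ℂ)

/-- the relations of the rational Cherednik algebra of `S_n`, `c = (n+1)/n`. -/
structure HMod (n : ℕ) (V : Type) [AddCommGroup V] [Module ℂ V] where
  x : Fin n → Module.End ℂ V
  y : Fin n → Module.End ℂ V
  s : Equiv.Perm (Fin n) → Module.End ℂ V
  s_one : s 1 = 1
  s_mul : ∀ g h, s (g * h) = s g * s h
  xx : ∀ i j, x i * x j = x j * x i
  yy : ∀ i j, y i * y j = y j * y i
  sx : ∀ g i, s g * x i = x (g i) * s g
  sy : ∀ g i, s g * y i = y (g i) * s g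
  sumx : ∑ i, x i = 0
  sumy : ∑ i, y i = 0
  yx : ∀ i j, i ≠ j → y i * x j - x j * y i = cc n • s (Equiv.swap i j) - (1 / (n : ℂ)) • 1

/-- a graded quotient of the polynomials; `eu` is the degree. -/
structure HGr (n : ℕ) (V : Type) [AddCommGroup V] [Module ℂ V] extends HMod n V where
  pi : MvPolynomial (Fin n) ℂ →ₗ[ℂ] V
  surj : Function.Surjective pi
  pi_X : ∀ i f, pi (X i * f) = x i (pi f)
  pi_s : ∀ (g : Equiv.Perm (Fin n)) f, pi (rename g f) = s g (pi f)
  eu : Module.End ℂ V
  eu_pi : ∀ (k : ℕ) (f : MvPolynomial (Fin n) ℂ), f.IsHomogeneous k →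
    eu (pi f) = (k : ℂ) • pi f
  xy : ∑ i, x i * y i
    = eu - (cc n / 2) • ∑ i, ∑ j ∈ Finset.univ.erase i, (1 - s (Equiv.swap i j))

section

variable {n : ℕ} {V : Type} [AddCommGroup V] [Module ℂ V] (H : HMod n V)

/-- the sign part. -/
def HMod.sg : Submodule ℂ V where
  carrier := {v | ∀ g : Equiv.Perm (Fin n), H.s g v = ((Equiv.Perm.sign g : ℤ) : ℂ) • v}
  add_mem' := by
    intro a b ha hb g
    rw [map_add, ha g, hb g, smul_add]
  zero_mem' := by
    intro g
    rw [map_zero, smul_zero]
  smul_mem' := by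
    intro c a ha g
    rw [map_smul, ha g, smul_comm]

/-- the letters: `inl i` is `x i`, `inr i` is `y i`. -/
def HMod.a (H : HMod n V) : Fin n ⊕ Fin n → Module.End ℂ V := Sum.elim H.x H.y

/-- the operator of a word. -/
def HMod.op (w : List (Fin n ⊕ Fin n)) : Module.End ℂ V := (w.map H.a).prod

/-- the span of all `op w δ` with `length w < m`. -/
def HMod.G (δ : V) (m : ℕ) : Submodule ℂ V :=
  Submodule.span ℂ {v | ∃ w : List (Fin n ⊕ Fin n), w.length < m ∧ v = H.op w δ}

/-- `monomial s 1 ↦ op w δ`, where `w` is the word with the letters of `s` in some order. -/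
def HMod.psi (δ : V) : Pn n →ₗ[ℂ] V :=
  (basisMonomials (Fin n ⊕ Fin n) ℂ).constr ℂ
    fun s => H.op (Finsupp.toMultiset s).toList δ

theorem HMod.psi_monomial (δ : V) (s : (Fin n ⊕ Fin n) →₀ ℕ) :
    H.psi δ (monomial s 1) = H.op (Finsupp.toMultiset s).toList δ := by
  have h := (basisMonomials (Fin n ⊕ Fin n) ℂ).constr_basis ℂ
    (fun s => H.op (Finsupp.toMultiset s).toList δ) s
  rw [coe_basisMonomials] at h
  exact h

end

/-- the number of maps `Fin n → Fin m` which are fixed by `g`. -/
def fx {n : ℕ} (m : ℕ) (g : Equiv.Perm (Fin n)) : ℕ := Nat.card {f : Fin n → Fin m // f ∘ g = f}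

end

end Pool.Agent.Helper19.HM
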