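import Pool.Agent.Helper19.HM.Goals

/-!
# Lower half of Haiman's theorem: assembly (helper19)
-/

set_option autoImplicit false

namespace Pool.Agent.Helper19.HM

noncomputable section

open Pool.Agent.Helper19.SQ MvPolynomial Module

/-- From the goals: if `dim DR_n ≤ (n+1)^(n-1)` then equality holds, and the character of `DR_n`
is given by Haiman's formula. -/
theorem haiman_of (hE : S_EXH) (hC : S_CYC) (hS : S_SUR) (hR : S_CHR) (n : ℕ) (hn : 2 ≤ n)
    (hfd : FiniteDimensional ℂ (DR n)) (hub : finrank ℂ (DR n) ≤ (n + 1) ^ (n - 1)) :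
    finrank ℂ (DR n) = (n + 1) ^ (n - 1) ∧ HaimanCharacter n := by
  obtain ⟨V, _, _, hV, hnt, ⟨H⟩⟩ := hE n hn
  obtain ⟨hdim, δ, -, hsg, hK⟩ := hC n V H hn
  obtain ⟨Φ, hsur, hΦ⟩ := hS n V H.toHMod δ hn hsg hK
  have hle : finrank ℂ V ≤ finrank ℂ (DR n) := LinearMap.finrank_le_finrank_of_surjective hsur
  have heq : finrank ℂ (DR n) = finrank ℂ V := le_antisymm (hub.trans hdim.ge) hle
  refine ⟨heq.trans hdim, ?_⟩
  have hinj : Function.Injective Φ :=
    (LinearMap.injective_iff_surjective_of_finrank_eq_finrank heq).2 hsur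
  let e : DR n ≃ₗ[ℂ] V := LinearEquiv.ofBijective Φ ⟨hinj, hsur⟩
  intro g
  have h1 : (rq g).toLinearMap = e.symm.conj (((Equiv.Perm.sign g : ℤ) : ℂ) • H.s g) := by
    refine LinearMap.ext fun d => ?_
    rw [LinearEquiv.conj_apply_apply, LinearEquiv.symm_symm]
    refine e.injective ?_
    rw [LinearEquiv.apply_symm_apply]
    exact hΦ g d
  have h2 : LinearMap.trace ℂ (DR n) (rq g).toLinearMap
      = ((Equiv.Perm.sign g : ℤ) : ℂ) * LinearMap.trace ℂ V (H.s g) := by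
    rw [h1, LinearMap.trace_conj', map_smul, smul_eq_mul]
  have h3 := hR n V H.toHMod hn g
  have hn1 : ((n : ℂ) + 1) ≠ 0 := by exact_mod_cast Nat.succ_ne_zero n
  have h4 : ((n : ℂ) + 1) ^ n = ((n : ℂ) + 1) ^ (n - 1) * ((n : ℂ) + 1) := by
    rw [← pow_succ]
    congr 1
    omega
  have h5 : ((n : ℂ) + 1) * LinearMap.trace ℂ V (H.s g) = (fx (n + 1) g : ℂ) := by
    rw [hdim, h4] at h3
    push_cast at h3
    have h6 : ((n : ℂ) + 1) ^ (n - 1) ≠ 0 := pow_ne_zero _ hn1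
    refine mul_left_cancel₀ h6 ?_
    rw [← h3]
    ring
  rw [h2, ← mul_assoc, mul_comm ((n : ℂ) + 1), mul_assoc, h5]
  rfl

end

end Pool.Agent.Helper19.HM
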