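import Pool.Agent.Helper19.HM.Defs

/-!
# Lower half of Haiman's theorem, module block: goals (captain helper19)

Every goal is a `def S_XX : Prop` with its complete proof in the doc-string.  Deliver
`Pool/Agent/<YourSeat>/HM/XX.lean`, importing this file, with a theorem `c_xx : S_XX` in the
namespace `Pool.Agent.<YourSeat>.HM`.  As hypotheses you may take the goals `(h : S_YY)` which are
named as allowed.  Notation: `s_ij = H.s (Equiv.swap i j)`, `c = cc n = (n+1)/n`,
`N = n(n-1)/2`, `sgn g = ((Equiv.Perm.sign g : ℤ) : ℂ)`.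
Useful consequences of `HMod`: `s g` is invertible with inverse `s g⁻¹`; for `i = j`:
`y_i x_i - x_i y_i = (n-1)/n - c ∑_{j≠i} s_ij` (from `sumx`: `x_i = -∑_{j≠i} x_j`).
-/

set_option autoImplicit false
set_option linter.unusedSectionVars false

namespace Pool.Agent.Helper19.HM

noncomputable section

open Pool.Agent.Helper19.SQ MvPolynomial Module

/-! ### the character -/

/-- **TRC** (packet HM-TRC).
PROOF.  `τ(g) = trace (s g)`.  For `g i = i`: `s g * y_i = y_i * s g`.  Let `j ≠ i`, `T = s g * (y_i x_j - x_j y_i)`.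
`trace (s g * x_j * y_i) = trace (y_i * s g * x_j) = trace (s g * y_i * x_j)` (`LinearMap.trace_mul_comm`,
`trace_mul_cycle`), so `trace T = 0`.  By `yx`, `T = c • (s g * s_ij) - (1/n) • s g`, so
`c τ(g * swap i j) = (1/n) τ(g)`, `c = (n+1)/n`. -/
def S_TRC : Prop :=
  ∀ (n : ℕ) (V : Type) [AddCommGroup V] [Module ℂ V] [FiniteDimensional ℂ V] (H : HMod n V),
    2 ≤ n → ∀ (g : Equiv.Perm (Fin n)) (i j : Fin n), g i = i → i ≠ j →
    ((n : ℂ) + 1) * LinearMap.trace ℂ V (H.s (g * Equiv.swap i j)) = LinearMap.trace ℂ V (H.s g)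

/-- **FXC** (packet HM-FXC).
PROOF.  `π = g * swap i j`, `g i = i`.  `f ∘ π = f` iff `f ∘ g = f` and `f i = f j`: `π i = g j`, `π j = i`,
`π k = g k` for other `k`.  As `g i = i` and `g k ≠ i` for `k ≠ i`, the value `f i` is free in the condition
`f ∘ g = f`: the map `f ↦ (update f i (f j), f i)` is a bijection from `{f // f ∘ g = f}` to
`{f // f ∘ π = f} × Fin m` (inverse `(f, a) ↦ update f i a`). -/
def S_FXC : Prop :=
  ∀ (n m : ℕ) (g : Equiv.Perm (Fin n)) (i j : Fin n), g i = i → i ≠ j →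
    fx m g = m * fx m (g * Equiv.swap i j)

/-- **CHR** (packet HM-CHR).  Hypotheses allowed: S_TRC, S_FXC.
PROOF.  Strong induction on the number of points moved by `g` (`g.support.card`).  `g = 1`: `s 1 = 1`,
trace `= finrank V`, `fx (n+1) 1 = (n+1)^n`.  Otherwise choose `i` with `g i ≠ i`, `j = g⁻¹ i ≠ i`,
`g' = g * swap i j`.  Then `g' i = g j = i`, `g' k = g k` for `k ≠ i, j`, so `g'` moves fewer points (it fixes
`i` and every point fixed by `g`; `j` is moved by `g`), and `g = g' * swap i j`.  By TRC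
`(n+1) τ(g) = τ(g')`, by FXC `fx (n+1) g' = (n+1) fx (n+1) g`. -/
def S_CHR : Prop :=
  ∀ (n : ℕ) (V : Type) [AddCommGroup V] [Module ℂ V] [FiniteDimensional ℂ V] (H : HMod n V),
    2 ≤ n → ∀ g : Equiv.Perm (Fin n),
    ((n : ℂ) + 1) ^ n * LinearMap.trace ℂ V (H.s g) = (finrank ℂ V : ℂ) * (fx (n + 1) g : ℂ)

/-- **SGM** (packet HM-SGM): the multiplicity of the sign.  Hypothesis allowed: S_CHR.
PROOF.  `e = (1/n!) ∑_g sgn g • s g`.  `s g * e = sgn g • e`, so `e * e = e`, the range of `e` is `H.sg`, and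
`finrank H.sg = trace e` (`LinearMap.IsProj.trace` or `LinearMap.IsIdempotentElem` versions).
`(n+1)^n n! trace e = ∑_g sgn g (n+1)^n τ(g) = finrank V * ∑_g sgn g * fx (n+1) g` and
`∑_g sgn g * fx (n+1) g = ∑_f ∑_{g : f ∘ g = f} sgn g`, `f : Fin n → Fin (n+1)`.  For `f` injective the inner sum
is `1` (only `g = 1`).  If `f i = f j`, `i ≠ j`: `g ↦ g * swap i j` is a sign reversing involution without
fixed points, the sum is `0` (this is done in the proof of `S_HAI`, Pool/Agent/Helper12/SQ/HAI.lean).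
The number of injective `f` is `(n+1)!`.  So `(n+1)^n n! dim = dim V (n+1)!`, divide by `(n+1) n!`. -/
def S_SGM : Prop :=
  ∀ (n : ℕ) (V : Type) [AddCommGroup V] [Module ℂ V] [FiniteDimensional ℂ V] (H : HMod n V),
    2 ≤ n → (n + 1) ^ (n - 1) * finrank ℂ H.sg = finrank ℂ V

/-! ### the sign part of a graded quotient -/

/-- **VDM** (packet HM-VDM): alternating polynomials of low degree.
PROOF.  `coeff (d ∘ g⁻¹) f`-type symmetry: from `rename g f = sgn g • f`,
`coeff (Finsupp.mapDomain g d) f = sgn g * coeff d f` (`coeff_rename_mapDomain`).  (1) if `d i = d j`, `i ≠ j`, then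
`mapDomain (swap i j) d = d`, so `coeff d f = 0`.  So for `d` in the support the `n` exponents are distinct,
and `∑ d_i ≥ 0 + 1 + ... + (n-1) = n(n-1)/2` (for distinct natural numbers, e.g. through an increasing
enumeration `Finset.orderEmbOfFin` or `Finset.sum_range_id_le` type lemmas; induction: the maximum is
`≥ n - 1`).  (2) if `∑ d_i = n(n-1)/2` then `{d_i} = {0, ..., n-1}`, so `d = mapDomain g d0` with
`d0 i = i`, and `coeff d f = sgn g * coeff d0 f`: `f` is determined by `coeff d0 f`, so two such `f`, `f'` satisfy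
`coeff d0 f' • f = coeff d0 f • f'`. -/
def S_VDM : Prop :=
  ∀ (n : ℕ), 
    (∀ (k : ℕ) (f : MvPolynomial (Fin n) ℂ), f.IsHomogeneous k →
      (∀ g : Equiv.Perm (Fin n), rename g f = ((Equiv.Perm.sign g : ℤ) : ℂ) • f) →
      2 * k < n * (n - 1) → f = 0) ∧
    ∃ L : MvPolynomial (Fin n) ℂ →ₗ[ℂ] ℂ, ∀ (k : ℕ) (f : MvPolynomial (Fin n) ℂ),
      f.IsHomogeneous k →
      (∀ g : Equiv.Perm (Fin n), rename g f = ((Equiv.Perm.sign g : ℤ) : ℂ) • f) →
      2 * k = n * (n - 1) → L f = 0 → f = 0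

/-- **HEU** (packet HM-HEU): `eu - N` is a commutator.
PROOF.  `E = ∑ y_i²`, `F = ∑ x_i²`.  `[y_i, F] = ∑_j ([y_i,x_j] x_j + x_j [y_i,x_j])`.  For `j ≠ i`:
`(c s_ij - 1/n) x_j + x_j (c s_ij - 1/n) = c (x_i + x_j) s_ij - (2/n) x_j` (`s_ij x_j = x_i s_ij`).  For `j = i`:
`2 (n-1)/n x_i - c ∑_{j≠i} (x_j + x_i) s_ij`.  Sum: `2 (n-1)/n x_i - (2/n) ∑_{j≠i} x_j = 2 x_i` (`sumx`).  So
`[E, F] = ∑ (y_i [y_i,F] + [y_i,F] y_i) = 2 ∑ (y_i x_i + x_i y_i) = 4 ∑ x_i y_i + 2 ∑_i ((n-1)/n - c ∑_{j≠i} s_ij)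
= 4 eu - 2 c ∑_i ∑_{j≠i} (1 - s_ij) + 2 (n-1) - 2 c ∑_i ∑_{j≠i} s_ij = 4 eu - 2 c n (n-1) + 2 (n-1)
= 4 eu - 2 n (n-1)` (`c n = n + 1`). -/
def S_HEU : Prop :=
  ∀ (n : ℕ) (V : Type) [AddCommGroup V] [Module ℂ V] (H : HGr n V), 2 ≤ n →
    (∑ i, H.y i * H.y i) * (∑ i, H.x i * H.x i) - (∑ i, H.x i * H.x i) * (∑ i, H.y i * H.y i)
      = (4 : ℂ) • H.eu - (2 * (n : ℂ) * ((n : ℂ) - 1)) • 1

/-- **SG1** (packet HM-SG1): the sign part has dimension at most one.  Hypotheses allowed: S_VDM,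
S_HEU.
PROOF.  `W = H.sg`.  (1) For `w ∈ W`, `w = pi f`; replace `f` by `(1/n!) ∑_g sgn g • rename g f` (`pi_s`): then `f`
is alternating, and so are its homogeneous components `f_k` (`rename` preserves degrees:
`rename g` commutes with `homogeneousComponent`, `homogeneousComponent_rename`-type or via uniqueness).
`w_k = pi f_k ∈ W`, `eu w_k = k w_k`, `w = ∑ w_k`, and `w_k = 0` for `2k < n(n-1)` (VDM).
(2) `W` is stable under `E, F` of HEU (they commute with all `s g`), so under `4 eu - 2n(n-1)`, which is the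
commutator of the restrictions, so the restriction `T` of `eu - N` (`N = n(n-1)/2`) to `W` has trace `0`.
(3) By (1) `W` is the sum of the eigenspaces of `T` for the eigenvalues `k - N ≥ 0`, `k ∈ ℕ`; `trace T` is the
sum of the eigenvalues times the dimensions of the eigenspaces (choose a basis of eigenvectors:
`W` is spanned by eigenvectors, `Basis` from a spanning set `Basis.ofSpan`/`exists_linearIndependent`,
`LinearMap.trace_eq_matrix_trace`; or `LinearMap.trace_eq_sum_trace_restrict`).  So `w_k = 0` unless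
`2k = n(n-1)`.
(4) So every `w ∈ W` is `pi f` with `f` alternating, homogeneous of degree `k0`, `2 k0 = n(n-1)`; these `f` form a
space of dimension `≤ 1` (the functional `L` of VDM is injective on it), so `finrank W ≤ 1`. -/
def S_SG1 : Prop :=
  ∀ (n : ℕ) (V : Type) [AddCommGroup V] [Module ℂ V] [FiniteDimensional ℂ V] (H : HGr n V),
    2 ≤ n → finrank ℂ H.sg ≤ 1

/-- **CYC** (packet HM-CYC): `V` is generated by the sign vector.  Hypotheses allowed: S_SGM, S_SG1.
PROOF.  `V ≠ 0`, so by SGM `finrank H.sg ≥ 1`, by SG1 it is `1`: `H.sg = span {δ}`, `δ ≠ 0`, and SGM: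
`finrank V = (n+1)^(n-1)`.
`V' = ⨆_m G δ m` (increasing union).  `x_i`, `y_i` map `G δ m` to `G δ (m+1)` (prepend a letter), and
`s g (op w δ) = op (g w) (s g δ) = sgn g • op (g w) δ` (`g w` = the word with all indices moved by `g`; `sx`, `sy`),
so `V'` is stable under all `x_i, y_i, s g`, and the restrictions form an `HMod n V'` (all relations
restrict).  `δ = op [] δ ∈ G δ 1 ≤ V'` is in its sign part, so `finrank (sign part of V') ≥ 1`, and SGM for `V'`:
`finrank V' ≥ (n+1)^(n-1) = finrank V`, so `V' = ⊤`.  As `V` is finite-dimensional and `G δ m` is increasing,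
`G δ K = ⊤` for some `K` (`monotone_stabilizes` for Noetherian modules). -/
def S_CYC : Prop :=
  ∀ (n : ℕ) (V : Type) [AddCommGroup V] [Module ℂ V] [FiniteDimensional ℂ V] [Nontrivial V]
    (H : HGr n V), 2 ≤ n →
    finrank ℂ V = (n + 1) ^ (n - 1) ∧ ∃ δ : V, δ ≠ 0 ∧ H.sg = Submodule.span ℂ {δ} ∧
      ∃ K, H.G δ K = ⊤

/-! ### normal ordering -/

/-- **PRM** (packet HM-PRM): the order of the letters does not matter modulo shorter words.
PROOF.  (0) `G` is increasing; `op (w ++ w') = op w * op w'`; `op w` maps `G δ m` into `G δ (m + length w)`;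
`s g (op w δ) = sgn g • op (w.map (Sum.map g g)) δ` (`sx`, `sy`, `s g δ = sgn g δ`), so `s g` maps `G δ m` into itself.
This is the first half of the statement.
(1) Adjacent letters: `op (u ++ a :: b :: v) δ - op (u ++ b :: a :: v) δ = op u ([a,b] (op v δ))`, where `[a, b]` is
`0` or `± (y_i x_j - x_j y_i)`, a combination of `1` and of operators `s g` (for `i = j` use
`x_i = -∑_{j≠i} x_j`).  By (0) `[a,b] (op v δ) ∈ G δ (length v + 1)`, and applying `op u` gives an element of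
`G δ (length u + length v + 1) ≤ G δ (length of the word)`.
(2) `List.Perm` induction: `swap` is (1) with `u = []`, `cons a`: `op (a :: w) δ - op (a :: w') δ = a (op w δ -
op w' δ) ∈ G δ (length w + 1)`, `trans`: sum. -/
def S_PRM : Prop :=
  ∀ (n : ℕ) (V : Type) [AddCommGroup V] [Module ℂ V] (H : HMod n V) (δ : V), 2 ≤ n → δ ∈ H.sg →
    (∀ m m', m ≤ m' → H.G δ m ≤ H.G δ m') ∧
    (∀ (w : List (Fin n ⊕ Fin n)) (m : ℕ), ∀ v ∈ H.G δ m, H.op w v ∈ H.G δ (m + w.length)) ∧
    (∀ (g : Equiv.Perm (Fin n)) (w : List (Fin n ⊕ Fin n)), H.s g (H.op w δ)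
      = ((Equiv.Perm.sign g : ℤ) : ℂ) • H.op (w.map (Sum.map g g)) δ) ∧
    (∀ (g : Equiv.Perm (Fin n)) (m : ℕ), ∀ v ∈ H.G δ m, H.s g v ∈ H.G δ m) ∧
    (∀ w w' : List (Fin n ⊕ Fin n), w.Perm w' → H.op w δ - H.op w' δ ∈ H.G δ w.length)

/-- **PSI** (packet HM-PSI): the map `psi`.  Hypothesis allowed: S_PRM.
PROOF.  For a word `w`, `(w.map X).prod = monomial s 1` with `s = Multiset.toFinsupp w` (induction), and
`(toMultiset s).toList` is a permutation of `w`, so by PRM (1): `psi ((w.map X).prod) - op w δ ∈ G δ (length w)`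
(for every word `w`; `psi_monomial`).
(2) `f` homogeneous of degree `k`: `f` is a combination of monomials `monomial s 1`, `s` of degree `k`,
`monomial s 1 = (w.map X).prod` with `w = (toMultiset s).toList`, `length w = k`.  By linearity it is enough to
treat `f = (w'.map X).prod`, `length w' = k`: `op w (psi f) - op w (op w' δ) ∈ G δ (k + length w)` by (1) and PRM,
`op w (op w' δ) = op (w ++ w') δ`, and (1) for the word `w ++ w'`.
(3) the same: `s g (psi f) ≡ s g (op w' δ) = sgn g • op (g w') δ ≡ sgn g • psi (((g w').map X).prod)` modulo `G δ k`,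
and `rn g ((w'.map X).prod) = ((g w').map X).prod`. -/
def S_PSI : Prop :=
  ∀ (n : ℕ) (V : Type) [AddCommGroup V] [Module ℂ V] (H : HMod n V) (δ : V), 2 ≤ n → δ ∈ H.sg →
    (∀ w : List (Fin n ⊕ Fin n),
      H.psi δ ((w.map X).prod) - H.op w δ ∈ H.G δ w.length) ∧
    (∀ (w : List (Fin n ⊕ Fin n)) (k : ℕ) (f : Pn n), f.IsHomogeneous k →
      H.psi δ ((w.map X).prod * f) - H.op w (H.psi δ f) ∈ H.G δ (k + w.length)) ∧
    (∀ (g : Equiv.Perm (Fin n)) (k : ℕ) (f : Pn n), f.IsHomogeneous k →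
      H.s g (H.psi δ f) - ((Equiv.Perm.sign g : ℤ) : ℂ) • H.psi δ (rn g f) ∈ H.G δ k)

/-- **KIL** (packet HM-KIL): `psi` kills the ideal modulo shorter words.  Hypotheses allowed: S_PRM,
S_PSI.
PROOF.  (1) `f` invariant (`rn g f = f` for all `g`), homogeneous of degree `k ≥ 1`: by PSI (3)
`s g (psi f) - sgn g • psi f ∈ G δ k` for all `g`; so with `v = (1/n!) ∑_g sgn g • s g (psi f)`: `psi f - v ∈ G δ k`,
and `v ∈ H.sg = span {δ} ≤ G δ 1 ≤ G δ k`.  So `psi f ∈ G δ k`.
(2) `h` homogeneous of degree `a`, `f` as in (1): `psi (h f) ∈ G δ (a + k)`: by linearity `h = (w.map X).prod`,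
`length w = a`; PSI (2): `psi (h f) ≡ op w (psi f)` modulo `G δ (k + a)`, and `op w (psi f) ∈ G δ (k + a)` by (1), PRM.
(3) `f ∈ dIdeal n`: by `Submodule.span_induction` (ideal = submodule over the ring) it is enough to treat
`h * f` with `f` invariant, `constantCoeff f = 0`, and sums.  The homogeneous components of `f` are
invariant (`rn g` preserves degrees), the component of degree `0` is `C (constantCoeff f) = 0`, and
`homogeneousComponent k (h f) = ∑_{a + j = k} h_a f_j` (write `h = ∑ h_a`, `f = ∑ f_j`). -/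
def S_KIL : Prop :=
  ∀ (n : ℕ) (V : Type) [AddCommGroup V] [Module ℂ V] (H : HMod n V) (δ : V), 2 ≤ n →
    H.sg = Submodule.span ℂ {δ} →
    ∀ f ∈ dIdeal n, ∀ k, H.psi δ (homogeneousComponent k f) ∈ H.G δ k

/-- **PRJ** (packet HM-PRJ): equivariant projections.
PROOF.  `V` is a vector space, so there is a linear projection `p0` onto `U` (`Submodule.exists_isCompl`,
`Submodule.linearProjOfIsCompl`, or `Submodule.exists_leftInverse_of_injective`).  Put
`p = (1/n!) ∑_g s g * p0 * s g⁻¹`.  `U` is stable under all `s g`, so `p v ∈ U`, `p v = v` for `v ∈ U`, and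
`s h * p = p * s h` (shift of the summation index). -/
def S_PRJ : Prop :=
  ∀ (n : ℕ) (V : Type) [AddCommGroup V] [Module ℂ V] (H : HMod n V) (U : Submodule ℂ V),
    (∀ g, ∀ v ∈ U, H.s g v ∈ U) → ∃ p : Module.End ℂ V, (∀ v, p v ∈ U) ∧ (∀ v ∈ U, p v = v) ∧
      ∀ g, H.s g * p = p * H.s g

/-- **SUR** (packet HM-SUR): the surjection.  Hypotheses allowed: S_PRM, S_PSI, S_KIL, S_PRJ.
PROOF.  Let `G δ K = ⊤`, `p_k` the projection of PRJ onto `G δ k` (stable by PRM).  Put
`Θ f = ∑_{k < K} (1 - p_k) (psi (homogeneousComponent k f))`, a linear map `Pn n → V`.  (For `k ≥ K`, `G δ k = ⊤`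
and `1 - p_k = 0`, so the sum may be extended to all `k`.)
(1) `Θ f = 0` for `f ∈ dIdeal n`: KIL and `(1 - p_k) v = 0` for `v ∈ G δ k`.  So `Θ` induces a linear map
`Φ : DR n → V` (`Submodule.liftQ` with `(dIdeal n).restrictScalars ℂ`, or `Ideal.Quotient` version).
(2) `Θ (rn g f) = sgn g • s g (Θ f)`: `homogeneousComponent k (rn g f) = rn g (homogeneousComponent k f)`, PSI (3),
`(1 - p_k) s g = s g (1 - p_k)`, `sgn g * sgn g = 1`.
(3) surjective: by induction on `m`, `G δ m ≤ range Θ` (`m ≤ K`).  Let `w` be a word of length `m`, `m + 1 ≤ K`,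
`f = (w.map X).prod`, homogeneous of degree `m`: `Θ f = psi f - p_m (psi f)` (if `m < K`), `psi f - op w δ ∈ G δ m`,
`p_m (psi f) ∈ G δ m`, so `op w δ ∈ Θ f + G δ m ≤ range Θ`. -/
def S_SUR : Prop :=
  ∀ (n : ℕ) (V : Type) [AddCommGroup V] [Module ℂ V] (H : HMod n V) (δ : V), 2 ≤ n →
    H.sg = Submodule.span ℂ {δ} → (∃ K, H.G δ K = ⊤) →
    ∃ Φ : DR n →ₗ[ℂ] V, Function.Surjective Φ ∧
      ∀ (g : Equiv.Perm (Fin n)) (d : DR n),
        Φ (rq g d) = ((Equiv.Perm.sign g : ℤ) : ℂ) • H.s g (Φ d)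

/-- the Dunkl block (helper4): there is a finite-dimensional graded quotient. -/
def S_EXH : Prop :=
  ∀ n : ℕ, 2 ≤ n → ∃ (V : Type) (_ : AddCommGroup V) (_ : Module ℂ V),
    FiniteDimensional ℂ V ∧ Nontrivial V ∧ Nonempty (HGr n V)

end

end Pool.Agent.Helper19.HM
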